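import Mathlib

/-!
# Complements of double brooms with short spines: `q = 2` and `MB = 3`
-/

namespace Pool.Agent.Results.MP_4cbb29_co.ShortBrooms

open SimpleGraph Matrix

section defs

variable {V : Type} [Fintype V] [DecidableEq V]

/-- `S(G)`: real symmetric matrices whose off-diagonal nonzero entries are exactly at the edges. -/
def SG (G : SimpleGraph V) : Set (Matrix V V ℝ) :=
  {A | A.IsSymm ∧ ∀ i j, i ≠ j → (A i j ≠ 0 ↔ G.Adj i j)}

/-- `q(G)`: the minimum number of distinct eigenvalues of a matrix in `S(G)`. -/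
noncomputable def q (G : SimpleGraph V) : ℕ :=
  sInf {t | ∃ A ∈ SG G, (spectrum ℝ A).ncard = t}

/-- the multiplicity of `a` as an eigenvalue of `A` (dimension of the eigenspace) -/
noncomputable def mult (A : Matrix V V ℝ) (a : ℝ) : ℕ :=
  Module.finrank ℝ (Module.End.eigenspace (Matrix.toLin' A) a)

/-- `G` achieves the multiplicity bipartition `[N - k, k]`, `1 ≤ k ≤ N/2`: some `A ∈ S(G)` has exactly
two distinct eigenvalues, with multiplicities `N - k` and `k`. -/
def Achieves (G : SimpleGraph V) (k : ℕ) : Prop :=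
  1 ≤ k ∧ 2 * k ≤ Fintype.card V ∧ ∃ A ∈ SG G, ∃ a b : ℝ, a ≠ b ∧ spectrum ℝ A = {a, b} ∧
    mult A a = Fintype.card V - k ∧ mult A b = k

/-- `MB(G)`: the least `k` such that `G` achieves `[N - k, k]`. -/
noncomputable def MB (G : SimpleGraph V) : ℕ := sInf {k | Achieves G k}

end defs

/-- The tree `S^r_{m,n}`: the path on `Fin r` with `m` leaves attached to its first vertex and `n`
leaves attached to its last vertex. -/
def broom (r m n : ℕ) : SimpleGraph (Fin r ⊕ (Fin m ⊕ Fin n)) where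
  Adj x y := match x, y with
    | Sum.inl i, Sum.inl j => i.val + 1 = j.val ∨ j.val + 1 = i.val
    | Sum.inl i, Sum.inr (Sum.inl _) => i.val = 0
    | Sum.inr (Sum.inl _), Sum.inl i => i.val = 0
    | Sum.inl i, Sum.inr (Sum.inr _) => i.val + 1 = r
    | Sum.inr (Sum.inr _), Sum.inl i => i.val + 1 = r
    | Sum.inr _, Sum.inr _ => False
  symm := ⟨by
    rintro (i | i | i) (j | j | j) h
    · exact h.symm
    all_goals exact h⟩
  loopless := ⟨by
    rintro (i | i | i) h
    · rcases h with h | h <;> omega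
    · exact h
    · exact h⟩

section lower

variable {V : Type} [Fintype V] [DecidableEq V]

lemma two_le_numEig (G : SimpleGraph V) (hG : ∃ i j, G.Adj i j) (A : Matrix V V ℝ)
    (hA : A ∈ SG G) : 2 ≤ (spectrum ℝ A).ncard := by
  have hH : A.IsHermitian := by
    rw [Matrix.IsHermitian, Matrix.conjTranspose_eq_transpose_of_trivial]
    exact hA.1
  by_contra hcon
  have hfin : (spectrum ℝ A).Finite := A.finite_real_spectrum
  have hle : (spectrum ℝ A).ncard ≤ 1 := by omega
  rw [Set.ncard_le_one hfin] at hle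
  obtain ⟨i, j, hij⟩ := hG
  have hall : ∀ k, hH.eigenvalues k = hH.eigenvalues i := fun k =>
    hle _ (hH.eigenvalues_mem_spectrum_real k) _ (hH.eigenvalues_mem_spectrum_real i)
  have hd : A = (hH.eigenvalues i) • (1 : Matrix V V ℝ) := by
    have h1 := hH.spectral_theorem
    have h2 : diagonal (RCLike.ofReal ∘ hH.eigenvalues : V → ℝ) =
        (hH.eigenvalues i) • (1 : Matrix V V ℝ) := by
      ext a b
      by_cases hab : a = b
      · subst hab
        simp [hall a]
      · simp [hab]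
    rw [h2] at h1
    refine h1.trans ?_
    simp
  have h3 : A i j ≠ 0 := (hA.2 i j (G.ne_of_adj hij)).2 hij
  rw [hd] at h3
  simp [G.ne_of_adj hij] at h3

lemma q_ge (G : SimpleGraph V) (hG : ∃ i j, G.Adj i j) (h2 : ∃ A ∈ SG G,
    (spectrum ℝ A).ncard = 2) : q G = 2 := by
  unfold q
  apply le_antisymm
  · exact Nat.sInf_le h2
  · apply le_csInf
    · exact ⟨2, h2⟩
    · rintro t ⟨A, hA, rfl⟩
      exact two_le_numEig G hG A hA

/-- facts on a matrix with two eigenvalues -/
lemma struct (A : Matrix V V ℝ) (hs : A.IsSymm) (a b : ℝ) (hab : a ≠ b) (k : ℕ)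
    (hk : k ≤ Fintype.card V)
    (ha : mult A a = Fintype.card V - k) (hb : mult A b = k) :
    (A - a • (1 : Matrix V V ℝ)).rank = k ∧
    ∀ i j, (A - a • (1 : Matrix V V ℝ)) i j ≠ 0 → (A - a • (1 : Matrix V V ℝ)) i i ≠ 0 := by
  set M := A - a • (1 : Matrix V V ℝ) with hM
  have hker : LinearMap.ker M.mulVecLin = Module.End.eigenspace (Matrix.toLin' A) a := by
    ext v
    rw [LinearMap.mem_ker, Module.End.mem_eigenspace_iff, Matrix.toLin'_apply,
      Matrix.mulVecLin_apply, hM, Matrix.sub_mulVec, Matrix.smul_mulVec, Matrix.one_mulVec,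
      sub_eq_zero]
  constructor
  · have h1 := LinearMap.finrank_range_add_finrank_ker M.mulVecLin
    rw [hker] at h1
    have h2 : Module.finrank ℝ (Module.End.eigenspace (Matrix.toLin' A) a) =
        Fintype.card V - k := ha
    rw [h2, Module.finrank_fintype_fun_eq_card] at h1
    have h3 : M.rank = Module.finrank ℝ (LinearMap.range M.mulVecLin) := rfl
    rw [h3]
    omega
  · -- the eigenspaces span
    have hdisj : Disjoint (Module.End.eigenspace (Matrix.toLin' A) a)
        (Module.End.eigenspace (Matrix.toLin' A) b) := by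
      rw [Submodule.disjoint_def]
      intro v h1 h2
      rw [Module.End.mem_eigenspace_iff] at h1 h2
      rw [h1] at h2
      have h3 : (a - b) • v = 0 := by rw [sub_smul, h2, sub_self]
      rcases smul_eq_zero.1 h3 with h4 | h4
      · exact absurd (sub_eq_zero.1 h4) hab
      · exact h4
    have htop : Module.End.eigenspace (Matrix.toLin' A) a ⊔
        Module.End.eigenspace (Matrix.toLin' A) b = ⊤ := by
      apply Submodule.eq_top_of_finrank_eq
      have h1 := Submodule.finrank_sup_add_finrank_inf_eq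
        (Module.End.eigenspace (Matrix.toLin' A) a) (Module.End.eigenspace (Matrix.toLin' A) b)
      rw [hdisj.eq_bot, finrank_bot, add_zero] at h1
      rw [h1, Module.finrank_fintype_fun_eq_card]
      have h2 : Module.finrank ℝ (Module.End.eigenspace (Matrix.toLin' A) a) =
        Fintype.card V - k := ha
      have h3 : Module.finrank ℝ (Module.End.eigenspace (Matrix.toLin' A) b) = k := hb
      rw [h2, h3]
      omega
    have hMM : M * M = (b - a) • M := by
      apply Matrix.toLin'.injective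
      apply LinearMap.ext
      intro v
      have hv : v ∈ Module.End.eigenspace (Matrix.toLin' A) a ⊔
        Module.End.eigenspace (Matrix.toLin' A) b := by rw [htop]; trivial
      obtain ⟨x, hx, y, hy, rfl⟩ := Submodule.mem_sup.1 hv
      have h1 : M *ᵥ x = 0 := by
        rw [← hker, LinearMap.mem_ker, Matrix.mulVecLin_apply] at hx
        exact hx
      have h2 : M *ᵥ y = (b - a) • y := by
        rw [Module.End.mem_eigenspace_iff, Matrix.toLin'_apply] at hy
        rw [hM, Matrix.sub_mulVec, Matrix.smul_mulVec, Matrix.one_mulVec, hy, sub_smul]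
      rw [Matrix.toLin'_apply, Matrix.toLin'_apply, ← Matrix.mulVec_mulVec, Matrix.smul_mulVec,
        Matrix.mulVec_add, h1, h2, zero_add, Matrix.mulVec_smul, h2]
    intro i j hij hii
    apply hij
    have h1 : (M * M) i i = 0 := by
      rw [hMM, Matrix.smul_apply, hii, smul_zero]
    rw [Matrix.mul_apply] at h1
    have hMs : ∀ x y, M x y = M y x := by
      intro x y
      have h2 : A x y = A y x := by
        have := congrFun (congrFun hs y) x
        rw [Matrix.transpose_apply] at this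
        exact this
      rw [hM]
      simp only [Matrix.sub_apply, Matrix.smul_apply, h2, Matrix.one_apply]
      by_cases hxy : x = y
      · subst hxy; rfl
      · rw [if_neg hxy, if_neg (fun h => hxy h.symm)]
    have h2 : ∀ x ∈ (Finset.univ : Finset V), 0 ≤ M i x * M x i := by
      intro x _
      rw [hMs x i]
      exact mul_self_nonneg _
    have h3 := (Finset.sum_eq_zero_iff_of_nonneg h2).1 h1 j (Finset.mem_univ j)
    rw [hMs j i] at h3
    exact mul_self_eq_zero.1 h3

/-- an induced path on four vertices excludes multiplicities one and two -/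
lemma three_le (T : SimpleGraph V) (i j k l : V) (hij : T.Adj i j) (hjk : T.Adj j k)
    (hkl : T.Adj k l) (hik : ¬ T.Adj i k) (hjl : ¬ T.Adj j l) (hil : ¬ T.Adj i l)
    (nik : i ≠ k) (njl : j ≠ l) (nil : i ≠ l) {t : ℕ} (ht : Achieves Tᶜ t) : 3 ≤ t := by
  obtain ⟨ht1, ht2, A, hA, a, b, hab, _, ha, hb⟩ := ht
  by_contra hcon
  obtain ⟨hrank, hdiag⟩ := struct A hA.1 a b hab t (by omega) ha hb
  set M := A - a • (1 : Matrix V V ℝ) with hM
  have hoff : ∀ x y, x ≠ y → M x y = A x y := by
    intro x y hxy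
    rw [hM]
    simp [Matrix.one_apply, hxy]
  have hz : ∀ x y, T.Adj x y → M x y = 0 := by
    intro x y hxy
    rw [hoff x y (T.ne_of_adj hxy)]
    by_contra hne
    have := (hA.2 x y (T.ne_of_adj hxy)).1 hne
    rw [SimpleGraph.compl_adj] at this
    exact this.2 hxy
  have hnz : ∀ x y, x ≠ y → ¬ T.Adj x y → M x y ≠ 0 := by
    intro x y hne hxy
    rw [hoff x y hne, hA.2 x y hne, SimpleGraph.compl_adj]
    exact ⟨hne, hxy⟩
  have hjj : M j j ≠ 0 := hdiag j l (hnz j l njl hjl)
  have hkk : M k k ≠ 0 := hdiag k i (hnz k i nik.symm (fun h => hik h.symm))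
  have hii : M i i ≠ 0 := hdiag i l (hnz i l nil hil)
  have hcase : t = 1 ∨ t = 2 := by omega
  rcases hcase with rfl | rfl
  · have h1 := M.rank_submatrix_le ![i, j] ![i, j]
    rw [hrank] at h1
    have hdet : (M.submatrix ![i, j] ![i, j]).det ≠ 0 := by
      rw [Matrix.det_fin_two]
      simp only [Matrix.submatrix_apply, Matrix.cons_val_zero, Matrix.cons_val_one]
      rw [hz i j hij]
      simp [hii, hjj]
    have h2 := Matrix.rank_of_isUnit _ ((Matrix.isUnit_iff_isUnit_det _).2
      (isUnit_iff_ne_zero.2 hdet))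
    rw [h2, Fintype.card_fin] at h1
    omega
  · have h1 := M.rank_submatrix_le ![i, j, k] ![j, k, l]
    rw [hrank] at h1
    have hdet : (M.submatrix ![i, j, k] ![j, k, l]).det ≠ 0 := by
      rw [Matrix.det_fin_three]
      simp only [Matrix.submatrix_apply, Matrix.cons_val_zero, Matrix.cons_val_one,
        Matrix.cons_val_two, Matrix.cons_val, Matrix.tail_cons, Matrix.head_cons]
      rw [hz i j hij, hz j k hjk, hz k j hjk.symm, hz k l hkl]
      simp only [mul_zero, zero_mul, sub_zero, add_zero, zero_add, zero_sub, ne_eq]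
      have h3 := hnz i l nil hil
      have h4 : M i l * M j j * M k k ≠ 0 := mul_ne_zero (mul_ne_zero h3 hjj) hkk
      exact h4
    have h2 := Matrix.rank_of_isUnit _ ((Matrix.isUnit_iff_isUnit_det _).2
      (isUnit_iff_ne_zero.2 hdet))
    rw [h2, Fintype.card_fin] at h1
    omega

end lower

section upper

variable {V : Type} [Fintype V] [DecidableEq V]

/-- vectors in three-dimensional space with orthonormal coordinate columns -/
lemma achieves_of_vectors (T : SimpleGraph V) (R : Matrix V (Fin 3) ℝ) (hR : Rᵀ * R = 1)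
    (hpat : ∀ x y, x ≠ y → ((R * Rᵀ) x y ≠ 0 ↔ ¬ T.Adj x y)) (hN : 6 ≤ Fintype.card V) :
    R * Rᵀ ∈ SG Tᶜ ∧ spectrum ℝ (R * Rᵀ) = {0, 1} ∧ mult (R * Rᵀ) 0 = Fintype.card V - 3 ∧
      mult (R * Rᵀ) 1 = 3 := by
  set A := R * Rᵀ with hA
  have hAA : A * A = A := by
    rw [hA, Matrix.mul_assoc, ← Matrix.mul_assoc Rᵀ R Rᵀ, hR, Matrix.one_mul]
  have hrank : A.rank = 3 := by
    rw [hA, Matrix.rank_self_mul_transpose, ← Matrix.rank_transpose_mul_self, hR,
      Matrix.rank_one, Fintype.card_fin]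
  have hrk : Module.finrank ℝ (LinearMap.range A.mulVecLin) = 3 := hrank
  have hm1 : mult A 1 = 3 := by
    have : Module.End.eigenspace (Matrix.toLin' A) 1 = LinearMap.range A.mulVecLin := by
      ext v
      rw [Module.End.mem_eigenspace_iff, Matrix.toLin'_apply, one_smul, LinearMap.mem_range]
      constructor
      · intro h; exact ⟨v, h⟩
      · rintro ⟨w, rfl⟩
        rw [Matrix.mulVecLin_apply, Matrix.mulVec_mulVec, hAA]
    unfold mult
    rw [this, hrk]
  have hm0 : mult A 0 = Fintype.card V - 3 := by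
    have : Module.End.eigenspace (Matrix.toLin' A) 0 = LinearMap.ker A.mulVecLin := by
      ext v
      rw [Module.End.mem_eigenspace_iff, Matrix.toLin'_apply, zero_smul, LinearMap.mem_ker,
        Matrix.mulVecLin_apply]
    unfold mult
    rw [this]
    have h1 := LinearMap.finrank_range_add_finrank_ker A.mulVecLin
    rw [hrk, Module.finrank_fintype_fun_eq_card] at h1
    omega
  have hmem : ∀ c : ℝ, mult A c ≠ 0 → c ∈ spectrum ℝ A := by
    intro c hc
    rw [← Matrix.spectrum_toLin', ← Module.End.hasEigenvalue_iff_mem_spectrum]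
    intro hbot
    apply hc
    change Module.finrank ℝ ((Module.End.genEigenspace (Matrix.toLin' A) c) 1) = 0
    rw [hbot, finrank_bot]
  refine ⟨⟨?_, ?_⟩, ?_, hm0, hm1⟩
  · rw [hA, Matrix.IsSymm, Matrix.transpose_mul, Matrix.transpose_transpose]
  · intro x y hxy
    rw [SimpleGraph.compl_adj, hpat x y hxy]
    exact ⟨fun h => ⟨hxy, h⟩, fun h => h.2⟩
  · apply Set.Subset.antisymm
    · intro c hc
      rw [← Matrix.spectrum_toLin', ← Module.End.hasEigenvalue_iff_mem_spectrum] at hc
      obtain ⟨v, hv⟩ := hc.exists_hasEigenvector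
      have h1 := hv.apply_eq_smul
      have hv0 := hv.2
      rw [Matrix.toLin'_apply] at h1
      have h2 : A *ᵥ (A *ᵥ v) = A *ᵥ v := by rw [Matrix.mulVec_mulVec, hAA]
      rw [h1, Matrix.mulVec_smul, h1, smul_smul] at h2
      have h3 : (c * c - c) • v = 0 := by rw [sub_smul, h2, sub_self]
      rcases smul_eq_zero.1 h3 with h4 | h4
      · have : c * (c - 1) = 0 := by linarith
        rcases mul_eq_zero.1 this with h5 | h5
        · left; exact h5
        · right; rw [Set.mem_singleton_iff]; linarith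
      · exact absurd h4 hv0
    · intro c hc
      rcases hc with rfl | hc
      · exact hmem 0 (by rw [hm0]; omega)
      · rw [Set.mem_singleton_iff] at hc
        subst hc
        exact hmem 1 (by rw [hm1]; omega)

lemma conclude (T : SimpleGraph V) (R : Matrix V (Fin 3) ℝ) (hR : Rᵀ * R = 1)
    (hpat : ∀ x y, x ≠ y → ((R * Rᵀ) x y ≠ 0 ↔ ¬ T.Adj x y)) (hN : 6 ≤ Fintype.card V)
    (i j k l : V) (hij : T.Adj i j) (hjk : T.Adj j k)
    (hkl : T.Adj k l) (hik : ¬ T.Adj i k) (hjl : ¬ T.Adj j l) (hil : ¬ T.Adj i l)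
    (nik : i ≠ k) (njl : j ≠ l) (nil : i ≠ l) : q Tᶜ = 2 ∧ MB Tᶜ = 3 := by
  obtain ⟨h1, h2, h3, h4⟩ := achieves_of_vectors T R hR hpat hN
  constructor
  · apply q_ge
    · refine ⟨i, k, ?_⟩
      rw [SimpleGraph.compl_adj]
      exact ⟨nik, hik⟩
    · refine ⟨_, h1, ?_⟩
      rw [h2, Set.ncard_pair (by norm_num)]
  · have h5 : Achieves Tᶜ 3 := ⟨by omega, by omega, _, h1, 0, 1, by norm_num, h2, h3, h4⟩
    unfold MB
    apply le_antisymm
    · exact Nat.sInf_le h5
    · apply le_csInf
      · exact ⟨3, h5⟩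
      · intro t ht
        exact three_le T i j k l hij hjk hkl hik hjl hil nik njl nil ht

end upper

section families

/-- the constant part -/
noncomputable def sg (m : ℕ) : ℝ := √(1 / (2 * m))

/-- the varying part, with sum zero -/
noncomputable def tu (m : ℕ) (i : Fin m) : ℝ :=
  if i.val = 0 then - (sg m / 2) else sg m / 2 / (m - 1)

/-- the sum of the squares of the varying part -/
noncomputable def Bq (m : ℕ) : ℝ := 1 / (8 * (m - 1))

variable {m : ℕ}

lemma sg_pos (hm : 2 ≤ m) : 0 < sg m := by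
  unfold sg
  apply Real.sqrt_pos.2
  have : (2 : ℝ) ≤ m := by exact_mod_cast hm
  positivity

lemma sg_sq (hm : 2 ≤ m) : sg m * sg m = 1 / (2 * m) := by
  unfold sg
  apply Real.mul_self_sqrt
  positivity

lemma sum_sg (hm : 2 ≤ m) : (m : ℝ) * (sg m * sg m) = 1 / 2 := by
  rw [sg_sq hm]
  have : (2 : ℝ) ≤ m := by exact_mod_cast hm
  field_simp

lemma Bq_pos (hm : 2 ≤ m) : 0 < Bq m := by
  unfold Bq
  have : (2 : ℝ) ≤ m := by exact_mod_cast hm
  have : (0 : ℝ) < m - 1 := by linarith
  positivity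

lemma Bq_le (hm : 2 ≤ m) : Bq m ≤ 1 / 8 := by
  unfold Bq
  have : (2 : ℝ) ≤ m := by exact_mod_cast hm
  apply one_div_le_one_div_of_le (by norm_num)
  linarith

lemma tu_ne (hm : 2 ≤ m) (i : Fin m) : tu m i ≠ 0 := by
  have h1 := sg_pos hm
  have : (2 : ℝ) ≤ m := by exact_mod_cast hm
  have h2 : (0 : ℝ) < m - 1 := by linarith
  unfold tu
  split_ifs
  · have : 0 < sg m / 2 := by positivity
    linarith
  · positivity

lemma tu_abs (hm : 2 ≤ m) (i : Fin m) : |tu m i| ≤ sg m / 2 := by
  have h1 := sg_pos hm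
  have : (2 : ℝ) ≤ m := by exact_mod_cast hm
  have h2 : (1 : ℝ) ≤ m - 1 := by linarith
  unfold tu
  split_ifs
  · rw [abs_neg, abs_of_pos (by positivity)]
  · rw [abs_of_pos (by positivity)]
    exact div_le_self (by positivity) h2

lemma sum_split (hm : 2 ≤ m) (c d : ℝ) :
    ∑ i : Fin m, (if i.val = 0 then c else d) = c + (m - 1) * d := by
  obtain ⟨k, rfl⟩ : ∃ k, m = k + 1 := ⟨m - 1, by omega⟩
  rw [Fin.sum_univ_succ]
  simp

lemma sum_tu (hm : 2 ≤ m) : ∑ i, tu m i = 0 := by
  unfold tu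
  rw [sum_split hm]
  have : (2 : ℝ) ≤ m := by exact_mod_cast hm
  have h2 : (m : ℝ) - 1 ≠ 0 := by linarith
  field_simp
  ring

lemma sum_tu_sq (hm : 2 ≤ m) : ∑ i, tu m i * tu m i = Bq m := by
  have h0 : ∀ i : Fin m, tu m i * tu m i = if i.val = 0 then (sg m * sg m) / 4 else
      (sg m * sg m) / 4 / ((m - 1) * (m - 1)) := by
    intro i
    unfold tu
    have : (2 : ℝ) ≤ m := by exact_mod_cast hm
    have h2 : (m : ℝ) - 1 ≠ 0 := by linarith
    split_ifs
    · ring
    · field_simp
      ring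
  rw [Finset.sum_congr rfl (fun i _ => h0 i), sum_split hm, sg_sq hm]
  unfold Bq
  have : (2 : ℝ) ≤ m := by exact_mod_cast hm
  have h2 : (m : ℝ) - 1 ≠ 0 := by linarith
  have h3 : (m : ℝ) ≠ 0 := by linarith
  field_simp
  ring

/-- two products are dominated -/
lemma dom {s t u v : ℝ} (hs : |u| ≤ s / 2) (ht : |v| ≤ t / 2) : |u * v| ≤ s * t / 4 := by
  rw [abs_mul]
  calc |u| * |v| ≤ (s / 2) * (t / 2) :=
        mul_le_mul hs ht (abs_nonneg v) ((abs_nonneg u).trans hs)
    _ = s * t / 4 := by ring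

end families

/-- the matrix of three-dimensional vectors assembled from the parts -/
def asm {r m n : ℕ} (X : Fin r → Fin 3 → ℝ) (Y : Fin m → Fin 3 → ℝ) (Z : Fin n → Fin 3 → ℝ) :
    Matrix (Fin r ⊕ (Fin m ⊕ Fin n)) (Fin 3) ℝ :=
  Matrix.of (Sum.elim X (Sum.elim Y Z))

lemma asm_dot {r m n : ℕ} (X : Fin r → Fin 3 → ℝ) (Y : Fin m → Fin 3 → ℝ) (Z : Fin n → Fin 3 → ℝ)
    (x y) : (asm X Y Z * (asm X Y Z)ᵀ) x y =
      Sum.elim X (Sum.elim Y Z) x 0 * Sum.elim X (Sum.elim Y Z) y 0 +
      Sum.elim X (Sum.elim Y Z) x 1 * Sum.elim X (Sum.elim Y Z) y 1 +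
      Sum.elim X (Sum.elim Y Z) x 2 * Sum.elim X (Sum.elim Y Z) y 2 := by
  rw [Matrix.mul_apply, Fin.sum_univ_three]
  rfl

lemma asm_gram {r m n : ℕ} (X : Fin r → Fin 3 → ℝ) (Y : Fin m → Fin 3 → ℝ) (Z : Fin n → Fin 3 → ℝ)
    (h : ∀ c d : Fin 3, ∑ i, X i c * X i d + (∑ i, Y i c * Y i d + ∑ i, Z i c * Z i d) =
      if c = d then 1 else 0) : (asm X Y Z)ᵀ * asm X Y Z = 1 := by
  ext c d
  rw [Matrix.mul_apply, Fintype.sum_sum_type, Fintype.sum_sum_type, Matrix.one_apply, ← h c d]
  rfl

lemma pattern {r m n : ℕ} (X : Fin r → Fin 3 → ℝ) (Y : Fin m → Fin 3 → ℝ) (Z : Fin n → Fin 3 → ℝ)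
    (h1 : ∀ i j : Fin r, i ≠ j → (X i 0 * X j 0 + X i 1 * X j 1 + X i 2 * X j 2 ≠ 0 ↔
      ¬ (i.val + 1 = j.val ∨ j.val + 1 = i.val)))
    (h2 : ∀ (i : Fin r) (k : Fin m), X i 0 * Y k 0 + X i 1 * Y k 1 + X i 2 * Y k 2 ≠ 0 ↔
      ¬ i.val = 0)
    (h3 : ∀ (i : Fin r) (k : Fin n), X i 0 * Z k 0 + X i 1 * Z k 1 + X i 2 * Z k 2 ≠ 0 ↔
      ¬ i.val + 1 = r)
    (h4 : ∀ i j : Fin m, i ≠ j → Y i 0 * Y j 0 + Y i 1 * Y j 1 + Y i 2 * Y j 2 ≠ 0)
    (h5 : ∀ i j : Fin n, i ≠ j → Z i 0 * Z j 0 + Z i 1 * Z j 1 + Z i 2 * Z j 2 ≠ 0)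
    (h6 : ∀ (i : Fin m) (j : Fin n), Y i 0 * Z j 0 + Y i 1 * Z j 1 + Y i 2 * Z j 2 ≠ 0) :
    ∀ x y, x ≠ y → ((asm X Y Z * (asm X Y Z)ᵀ) x y ≠ 0 ↔ ¬ (broom r m n).Adj x y) := by
  intro x y hxy
  rw [asm_dot]
  rcases x with i | i | i <;> rcases y with j | j | j <;>
    simp only [Sum.elim_inl, Sum.elim_inr]
  · exact h1 i j (fun h => hxy (by rw [h]))
  · exact h2 i j
  · exact h3 i j
  · have := h2 j i
    rw [mul_comm (X j 0), mul_comm (X j 1), mul_comm (X j 2)] at this
    exact this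
  · have := h4 i j (fun h => hxy (by rw [h]))
    exact ⟨fun _ h => h, fun _ => this⟩
  · have := h6 i j
    exact ⟨fun _ h => h, fun _ => this⟩
  · have := h3 j i
    rw [mul_comm (X j 0), mul_comm (X j 1), mul_comm (X j 2)] at this
    exact this
  · have := h6 j i
    rw [mul_comm (Y j 0), mul_comm (Y j 1), mul_comm (Y j 2)] at this
    exact ⟨fun _ h => h, fun _ => this⟩
  · have := h5 i j (fun h => hxy (by rw [h]))
    exact ⟨fun _ h => h, fun _ => this⟩

lemma card_broom (r m n : ℕ) : Fintype.card (Fin r ⊕ (Fin m ⊕ Fin n)) = r + (m + n) := by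
  simp

section two

variable {m n : ℕ}

lemma case_two (hm : 2 ≤ m) (hn : 2 ≤ n) : q (broom 2 m n)ᶜ = 2 ∧ MB (broom 2 m n)ᶜ = 3 := by
  have sm := sg_pos hm
  have sn := sg_pos hn
  have em := sum_sg hm
  have en := sum_sg hn
  have tm := sum_tu hm
  have tn := sum_tu hn
  have qm := sum_tu_sq hm
  have qn := sum_tu_sq hn
  have Bm := Bq_le hm
  have Bn := Bq_le hn
  have ha : √(1 - Bq n) * √(1 - Bq n) = 1 - Bq n := Real.mul_self_sqrt (by linarith)
  have hb : √(1 - Bq m) * √(1 - Bq m) = 1 - Bq m := Real.mul_self_sqrt (by linarith)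
  have hap : 0 < √(1 - Bq n) := Real.sqrt_pos.2 (by linarith)
  have hbp : 0 < √(1 - Bq m) := Real.sqrt_pos.2 (by linarith)
  let X : Fin 2 → Fin 3 → ℝ := ![![√(1 - Bq n), 0, 0], ![0, √(1 - Bq m), 0]]
  let Y : Fin m → Fin 3 → ℝ := fun i => ![0, tu m i, sg m]
  let Z : Fin n → Fin 3 → ℝ := fun i => ![tu n i, 0, sg n]
  apply conclude (broom 2 m n) (asm X Y Z) _ _ _ (Sum.inr (Sum.inl ⟨0, by omega⟩)) (Sum.inl 0)
    (Sum.inl 1) (Sum.inr (Sum.inr ⟨0, by omega⟩))
  · rfl
  · exact Or.inl rfl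
  · rfl
  · exact fun (h : (1 : ℕ) = 0) => by omega
  · exact fun (h : (0 : ℕ) + 1 = 2) => by omega
  · exact fun h => h
  · simp
  · simp
  · simp
  · apply asm_gram
    intro c d
    fin_cases c <;> fin_cases d <;>
      simp [X, Y, Z, Fin.sum_univ_two, ← Finset.sum_mul, ← Finset.mul_sum, tm, tn, qm, qn, em, en,
        ha, hb] <;> norm_num
  · apply pattern
    · intro i j hij
      fin_cases i <;> fin_cases j <;> simp_all [X]
    · intro i k
      fin_cases i
      · simp [X, Y]
      · simp [X, Y, hbp.ne', tu_ne hm k]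
    · intro i k
      fin_cases i
      · simp [X, Z, hap.ne', tu_ne hn k]
      · simp [X, Z]
    · intro i j _
      have h1 := dom (tu_abs hm i) (tu_abs hm j)
      have h2 := neg_abs_le (tu m i * tu m j)
      have h3 : 0 < sg m * sg m := by positivity
      simp only [Y, Matrix.cons_val_zero, Matrix.cons_val_one, Matrix.cons_val]
      intro h
      nlinarith
    · intro i j _
      have h1 := dom (tu_abs hn i) (tu_abs hn j)
      have h2 := neg_abs_le (tu n i * tu n j)
      have h3 : 0 < sg n * sg n := by positivity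
      simp only [Z, Matrix.cons_val_zero, Matrix.cons_val_one, Matrix.cons_val]
      intro h
      nlinarith
    · intro i j
      simp only [Y, Z, Matrix.cons_val_zero, Matrix.cons_val_one, Matrix.cons_val]
      have : 0 < sg m * sg n := by positivity
      intro h
      nlinarith
  · rw [card_broom]; omega

end two

section three

variable {m n : ℕ}

lemma case_three (hm : 2 ≤ m) (hn : 2 ≤ n) : q (broom 3 m n)ᶜ = 2 ∧ MB (broom 3 m n)ᶜ = 3 := by
  have sm := sg_pos hm
  have sn := sg_pos hn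
  have em := sum_sg hm
  have en := sum_sg hn
  have tm := sum_tu hm
  have tn := sum_tu hn
  have qm := sum_tu_sq hm
  have qn := sum_tu_sq hn
  have Bm := Bq_le hm
  have Bn := Bq_le hn
  have ha : √(1 / 2) * √(1 / 2) = (1 / 2 : ℝ) := Real.mul_self_sqrt (by norm_num)
  have hc : √(1 - Bq m - Bq n) * √(1 - Bq m - Bq n) = 1 - Bq m - Bq n :=
    Real.mul_self_sqrt (by linarith)
  have hap : 0 < √(1 / 2 : ℝ) := Real.sqrt_pos.2 (by norm_num)
  have hcp : 0 < √(1 - Bq m - Bq n) := Real.sqrt_pos.2 (by linarith)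
  generalize √(1 / 2 : ℝ) = a at ha hap
  generalize √(1 - Bq m - Bq n) = g at hc hcp
  let X : Fin 3 → Fin 3 → ℝ := ![![a, 0, 0], ![0, 0, g], ![3 / 5 * a, 4 / 5 * a, 0]]
  let Y : Fin m → Fin 3 → ℝ := fun i => ![0, sg m, tu m i]
  let Z : Fin n → Fin 3 → ℝ := fun i => ![- (4 / 5) * sg n, 3 / 5 * sg n, tu n i]
  apply conclude (broom 3 m n) (asm X Y Z) _ _ _ (Sum.inr (Sum.inl ⟨0, by omega⟩)) (Sum.inl 0)
    (Sum.inl 1) (Sum.inl 2)
  · rfl
  · exact Or.inl rfl
  · exact Or.inl rfl
  · exact fun (h : (1 : ℕ) = 0) => by omega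
  · exact fun (h : (0 : ℕ) + 1 = 2 ∨ (2 : ℕ) + 1 = 0) => by omega
  · exact fun (h : (2 : ℕ) = 0) => by omega
  · simp
  · simp
  · simp
  · apply asm_gram
    intro c d
    have e1 : ∑ i : Fin m, sg m * tu m i = 0 := by rw [← Finset.mul_sum, tm, mul_zero]
    have e2 : ∑ i : Fin m, tu m i * sg m = 0 := by rw [← Finset.sum_mul, tm, zero_mul]
    have e3 : ∀ c : ℝ, ∑ i : Fin n, c * sg n * tu n i = 0 := by
      intro c; rw [← Finset.mul_sum, tn, mul_zero]
    have e4 : ∀ c : ℝ, ∑ i : Fin n, tu n i * (c * sg n) = 0 := by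
      intro c; rw [← Finset.sum_mul, tn, zero_mul]
    fin_cases c <;> fin_cases d <;>
      simp only [X, Y, Z, Fin.sum_univ_three, Fin.zero_eta, Fin.mk_one, Fin.reduceFinMk,
        Matrix.cons_val_zero, Matrix.cons_val_one, Matrix.cons_val, zero_mul, mul_zero,
        e1, e2, e3, e4, qm, qn, Finset.sum_const_zero, Finset.sum_const, Finset.card_univ, Fintype.card_fin, nsmul_eq_mul, if_true,
        Fin.reduceEq, if_false] <;> nlinarith
  · apply pattern
    · intro i j hij
      fin_cases i <;> fin_cases j <;> simp_all [X, hap.ne']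
    · intro i k
      fin_cases i
      · simp [X, Y]
      · simp [X, Y, hcp.ne', tu_ne hm k]
      · simp [X, Y, hap.ne', sm.ne']
    · intro i k
      fin_cases i
      · simp [X, Z, hap.ne', sn.ne']
      · simp [X, Z, hcp.ne', tu_ne hn k]
      · simp [X, Z]
        ring
    · intro i j _
      have h1 := dom (tu_abs hm i) (tu_abs hm j)
      have h2 := neg_abs_le (tu m i * tu m j)
      have h3 : 0 < sg m * sg m := by positivity
      simp only [Y, Matrix.cons_val_zero, Matrix.cons_val_one, Matrix.cons_val]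
      intro h
      nlinarith
    · intro i j _
      have h1 := dom (tu_abs hn i) (tu_abs hn j)
      have h2 := neg_abs_le (tu n i * tu n j)
      have h3 : 0 < sg n * sg n := by positivity
      simp only [Z, Matrix.cons_val_zero, Matrix.cons_val_one, Matrix.cons_val]
      intro h
      nlinarith
    · intro i j
      have h1 := dom (tu_abs hm i) (tu_abs hn j)
      have h2 := neg_abs_le (tu m i * tu n j)
      simp only [Y, Z, Matrix.cons_val_zero, Matrix.cons_val_one, Matrix.cons_val]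
      have : 0 < sg m * sg n := by positivity
      intro h
      nlinarith
  · rw [card_broom]; omega

end three

section four

variable {m n : ℕ}

lemma case_four (hm : 2 ≤ m) (hn : 2 ≤ n) : q (broom 4 m n)ᶜ = 2 ∧ MB (broom 4 m n)ᶜ = 3 := by
  have sm := sg_pos hm
  have sn := sg_pos hn
  have em := sum_sg hm
  have en := sum_sg hn
  have tm := sum_tu hm
  have tn := sum_tu hn
  have qm := sum_tu_sq hm
  have qn := sum_tu_sq hn
  have Bm := Bq_le hm
  have Bn := Bq_le hn
  have ha : √(1 / 2) * √(1 / 2) = (1 / 2 : ℝ) := Real.mul_self_sqrt (by norm_num)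
  have hg : √(1 / 2 - Bq m) * √(1 / 2 - Bq m) = 1 / 2 - Bq m :=
    Real.mul_self_sqrt (by linarith)
  have hh : √(1 / 2 - Bq n) * √(1 / 2 - Bq n) = 1 / 2 - Bq n :=
    Real.mul_self_sqrt (by linarith)
  have hap : 0 < √(1 / 2 : ℝ) := Real.sqrt_pos.2 (by norm_num)
  have hgp : 0 < √(1 / 2 - Bq m) := Real.sqrt_pos.2 (by linarith)
  have hhp : 0 < √(1 / 2 - Bq n) := Real.sqrt_pos.2 (by linarith)
  generalize √(1 / 2 : ℝ) = a at ha hap
  generalize √(1 / 2 - Bq m) = g at hg hgp
  generalize √(1 / 2 - Bq n) = g' at hh hhp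
  let X : Fin 4 → Fin 3 → ℝ := ![![0, 4 / 5 * a, 3 / 5 * a], ![g, 0, 0], ![0, g', 0],
    ![4 / 5 * a, 0, 3 / 5 * a]]
  let Y : Fin m → Fin 3 → ℝ := fun i => ![tu m i, - (3 / 5) * sg m, 4 / 5 * sg m]
  let Z : Fin n → Fin 3 → ℝ := fun i => ![- (3 / 5) * sg n, tu n i, 4 / 5 * sg n]
  apply conclude (broom 4 m n) (asm X Y Z) _ _ _ (Sum.inr (Sum.inl ⟨0, by omega⟩)) (Sum.inl 0)
    (Sum.inl 1) (Sum.inl 2)
  · rfl
  · exact Or.inl rfl
  · exact Or.inl rfl
  · exact fun (h : (1 : ℕ) = 0) => by omega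
  · exact fun (h : (0 : ℕ) + 1 = 2 ∨ (2 : ℕ) + 1 = 0) => by omega
  · exact fun (h : (2 : ℕ) = 0) => by omega
  · simp
  · simp
  · simp
  · apply asm_gram
    intro c d
    have e1 : ∀ c : ℝ, ∑ i : Fin m, c * sg m * tu m i = 0 := by
      intro c; rw [← Finset.mul_sum, tm, mul_zero]
    have e2 : ∀ c : ℝ, ∑ i : Fin m, tu m i * (c * sg m) = 0 := by
      intro c; rw [← Finset.sum_mul, tm, zero_mul]
    have e3 : ∀ c : ℝ, ∑ i : Fin n, c * sg n * tu n i = 0 := by
      intro c; rw [← Finset.mul_sum, tn, mul_zero]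
    have e4 : ∀ c : ℝ, ∑ i : Fin n, tu n i * (c * sg n) = 0 := by
      intro c; rw [← Finset.sum_mul, tn, zero_mul]
    fin_cases c <;> fin_cases d <;>
      simp only [X, Y, Z, Fin.sum_univ_four, Fin.zero_eta, Fin.mk_one, Fin.reduceFinMk,
        Matrix.cons_val_zero, Matrix.cons_val_one, Matrix.cons_val, zero_mul, mul_zero,
        e1, e2, e3, e4, qm, qn, Finset.sum_const_zero, Finset.sum_const, Finset.card_univ, Fintype.card_fin, nsmul_eq_mul, if_true,
        Fin.reduceEq, if_false] <;> nlinarith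
  · apply pattern
    · intro i j hij
      fin_cases i <;> fin_cases j <;> simp_all [X, hap.ne', hgp.ne', hhp.ne']
    · intro i k
      have h1 := tu_abs hm k
      have h2 := neg_abs_le (tu m k)
      fin_cases i
      · simp [X, Y]
        ring
      · simp [X, Y, hgp.ne', tu_ne hm k]
      · simp [X, Y, hhp.ne', sm.ne']
      · have h3 : 4 / 5 * a * tu m k + 0 * (- (3 / 5) * sg m) + 3 / 5 * a * (4 / 5 * sg m) ≠ 0 := by
          have h4 : 0 < 4 / 5 * tu m k + 3 / 5 * (4 / 5 * sg m) := by linarith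
          have h5 : 0 < a * (4 / 5 * tu m k + 3 / 5 * (4 / 5 * sg m)) := mul_pos hap h4
          intro h
          nlinarith
        exact ⟨fun _ (h : (3 : ℕ) = 0) => by omega, fun _ => h3⟩
    · intro i k
      have h1 := tu_abs hn k
      have h2 := neg_abs_le (tu n k)
      fin_cases i
      · have h3 : 0 * (- (3 / 5) * sg n) + 4 / 5 * a * tu n k + 3 / 5 * a * (4 / 5 * sg n) ≠ 0 := by
          have h4 : 0 < 4 / 5 * tu n k + 3 / 5 * (4 / 5 * sg n) := by linarith
          have h5 : 0 < a * (4 / 5 * tu n k + 3 / 5 * (4 / 5 * sg n)) := mul_pos hap h4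
          intro h
          nlinarith
        exact ⟨fun _ (h : (0 : ℕ) + 1 = 4) => by omega, fun _ => h3⟩
      · simp [X, Z, hgp.ne', sn.ne']
      · simp [X, Z, hhp.ne', tu_ne hn k]
      · simp [X, Z]
        ring
    · intro i j _
      have h1 := dom (tu_abs hm i) (tu_abs hm j)
      have h2 := neg_abs_le (tu m i * tu m j)
      have h3 : 0 < sg m * sg m := by positivity
      simp only [Y, Matrix.cons_val_zero, Matrix.cons_val_one, Matrix.cons_val]
      intro h
      nlinarith
    · intro i j _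
      have h1 := dom (tu_abs hn i) (tu_abs hn j)
      have h2 := neg_abs_le (tu n i * tu n j)
      have h3 : 0 < sg n * sg n := by positivity
      simp only [Z, Matrix.cons_val_zero, Matrix.cons_val_one, Matrix.cons_val]
      intro h
      nlinarith
    · intro i j
      have h1 := tu_abs hm i
      have h2 := le_abs_self (tu m i)
      have h3 := tu_abs hn j
      have h4 := le_abs_self (tu n j)
      simp only [Y, Z, Matrix.cons_val_zero, Matrix.cons_val_one, Matrix.cons_val]
      have h5 : 0 < sg m * sg n := by positivity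
      have h6 : tu m i * sg n ≤ sg m * sg n / 2 := by nlinarith
      have h7 : tu n j * sg m ≤ sg m * sg n / 2 := by nlinarith
      intro h
      nlinarith
  · rw [card_broom]; omega

end four

/-- **Positive answer to Q1.** For `r ∈ {2, 3, 4}` and all `m, n > 1` the complement of the double
broom `S^r_{m,n}` has `q = 2` and `MB = 3`. -/
theorem result : ∀ r : ℕ, r = 2 ∨ r = 3 ∨ r = 4 → ∀ m n : ℕ, 1 < m → 1 < n →
    q (broom r m n)ᶜ = 2 ∧ MB (broom r m n)ᶜ = 3 := by
  rintro r (rfl | rfl | rfl) m n hm hn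
  · exact case_two hm hn
  · exact case_three hm hn
  · exact case_four hm hn

end Pool.Agent.Results.MP_4cbb29_co.ShortBrooms
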